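import Pool.Agent.X243.CD.Pull
import Pool.Agent.X243.Tate.OneTor

/-!
The homomorphism from the points of `y² = x (x² + a x + b)` over `K₀` to the points of its pullback, and
independent points.
-/

set_option autoImplicit false
set_option linter.all false

open WeierstrassCurve WeierstrassCurve.Affine Polynomial
open scoped Classical

namespace Pool.Agent.N601.PB

open Pool.Agent.TH115.GD Pool.Agent.X243.Gen Pool.Agent.X243.Tate Pool.Agent.X243.CD
open Pool.Agent.W309.RK Pool.Agent.TH958.T2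

section cast

variable {K : Type} [Field K]

/-- The groups of points of equal curves. -/
noncomputable def castPt {W₁ W₂ : WeierstrassCurve K} (h : W₁ = W₂) :
    W₁.toAffine.Point →+ W₂.toAffine.Point := by
  subst h
  exact AddMonoidHom.id _

theorem castPt_inj {W₁ W₂ : WeierstrassCurve K} (h : W₁ = W₂) :
    Function.Injective (castPt h) := by
  subst h
  exact fun _ _ h => h

theorem castPt_some {W₁ W₂ : WeierstrassCurve K} (h : W₁ = W₂) (x y : K)
    (hn : W₁.toAffine.Nonsingular x y) :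
    ∃ hn' : W₂.toAffine.Nonsingular x y, castPt h (Point.some x y hn) = Point.some x y hn' := by
  subst h
  exact ⟨hn, rfl⟩

end cast

section hom

variable {K₀ K : Type} [Field K₀] [Field K]

/-- The pullback of points. -/
theorem exists_hom (ψ : K₀ →+* K) {a₀ b₀ : K₀} {a b : K} (ha : a = ψ a₀) (hb : b = ψ b₀) :
    ∃ ι : Pt (crvT a₀ b₀) K₀ →+ Pt (crvT a b) K, Function.Injective ι ∧
      (∀ (x y : K₀) (hn : ((crvT a₀ b₀).baseChange K₀).toAffine.Nonsingular x y),
        ∃ hn' : ((crvT a b).baseChange K).toAffine.Nonsingular (ψ x) (ψ y),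
          ι (Point.some x y hn) = Point.some (ψ x) (ψ y) hn') ∧
      ∀ P : Pt (crvT a b) K, Pulled ψ P → ∃ P₀ : Pt (crvT a₀ b₀) K₀, ι P₀ = P := by
  letI : Algebra K₀ K := ψ.toAlgebra
  have hψ : algebraMap K₀ K = ψ := rfl
  have e : (crvT a₀ b₀).baseChange K = (crvT a b).baseChange K := by
    subst ha hb
    apply WeierstrassCurve.ext
    · show (algebraMap K₀ K) (0 : K₀) = (algebraMap K K) (0 : K)
      rw [map_zero, map_zero]
    · rfl
    · show (algebraMap K₀ K) (0 : K₀) = (algebraMap K K) (0 : K)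
      rw [map_zero, map_zero]
    · rfl
    · show (algebraMap K₀ K) (0 : K₀) = (algebraMap K K) (0 : K)
      rw [map_zero, map_zero]
  have hsome : ∀ (x y : K₀) (hn : ((crvT a₀ b₀).baseChange K₀).toAffine.Nonsingular x y),
        ∃ hn' : ((crvT a b).baseChange K).toAffine.Nonsingular (ψ x) (ψ y),
          ((castPt e).comp (act (crvT a₀ b₀) (Algebra.ofId K₀ K))) (Point.some x y hn) =
            Point.some (ψ x) (ψ y) hn' := by
    intro x y hn
    obtain ⟨h', e'⟩ := castPt_some e (ψ x) (ψ y)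
      (((crvT a₀ b₀).toAffine.baseChange_nonsingular (f := Algebra.ofId K₀ K)
        (Algebra.ofId K₀ K).toRingHom.injective x y).mpr hn)
    exact ⟨h', e'⟩
  refine ⟨(castPt e).comp (act (crvT a₀ b₀) (Algebra.ofId K₀ K)), ?_, hsome, ?_⟩
  · exact (castPt_inj e).comp (Point.map_injective (W' := (crvT a₀ b₀).toAffine)
      (f := Algebra.ofId K₀ K))
  · rintro P (rfl | ⟨x, y, hn, rfl⟩)
    · exact ⟨0, map_zero _⟩
    · have hn0 : ((crvT a₀ b₀).baseChange K₀).toAffine.Nonsingular x y := by
        have h3 : ((crvT a₀ b₀).baseChange K).toAffine.Nonsingular (ψ x) (ψ y) := by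
          rw [e]; exact hn
        exact ((crvT a₀ b₀).toAffine.baseChange_nonsingular (f := Algebra.ofId K₀ K)
          (Algebra.ofId K₀ K).toRingHom.injective x y).mp h3
      obtain ⟨h', e'⟩ := hsome x y hn0
      exact ⟨Point.some x y hn0, e'⟩

end hom

section group

/-- A subgroup which generates modulo `2` has odd index up to exponents. -/
theorem odd_exponent {A : Type} [AddCommGroup A] (H : AddSubgroup A) (hfg : AddGroup.FG A)
    (h : ∀ P : A, ∃ Q P1 : A, P1 ∈ H ∧ P = Q + Q + P1) :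
    ∃ r : ℕ, Odd r ∧ ∀ P : A, r • P ∈ H := by
  haveI : AddGroup.FG (A ⧸ H) := QuotientAddGroup.fg H
  haveI : Module.Finite ℤ (A ⧸ H) := Module.Finite.iff_addGroup_fg.2 inferInstance
  obtain ⟨r, hr, hr'⟩ := Submodule.exists_sub_one_mem_and_smul_eq_zero_of_fg_of_le_smul
    (Ideal.span {(2 : ℤ)}) (⊤ : Submodule ℤ (A ⧸ H)) Module.Finite.fg_top (by
      intro x _
      obtain ⟨P, rfl⟩ := QuotientAddGroup.mk_surjective x
      obtain ⟨Q, P1, h1, e⟩ := h P
      have e2 : ((P : A) : A ⧸ H) = (2 : ℤ) • ((Q : A) : A ⧸ H) := by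
        rw [e, QuotientAddGroup.mk_add, (QuotientAddGroup.eq_zero_iff P1).2 h1, add_zero,
          QuotientAddGroup.mk_add, two_zsmul]
      rw [e2]
      exact Submodule.smul_mem_smul (Ideal.mem_span_singleton_self _) trivial)
  refine ⟨r.natAbs, ?_, fun P => ?_⟩
  · rw [Int.natAbs_odd]
    obtain ⟨c, hc⟩ := Ideal.mem_span_singleton'.1 hr
    exact ⟨c, by linear_combination -hc⟩
  · have h1 := hr' ((P : A) : A ⧸ H) trivial
    have h3 : (((r • P : A)) : A ⧸ H) = 0 := by
      rw [← h1]
      rfl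
    have h4 := (QuotientAddGroup.eq_zero_iff _).1 h3
    rcases Int.natAbs_eq r with h5 | h5
    · rw [h5, natCast_zsmul] at h4
      exact h4
    · rw [h5, neg_smul, natCast_zsmul] at h4
      exact neg_mem_iff.1 h4

/-- Independence from parities. -/
theorem indep_par {A : Type} [AddCommGroup A] (f g e : A →+ ZMod 2) {P Q : A}
    (fP : f P = 1) (gP : g P = 0) (eP : e P = 0) (fQ : f Q = 0) (gQ : g Q = 1) (eQ : e Q = 0)
    (htor : ∀ R : A, R + R = 0 → R = 0 ∨ e R = 1) :
    LinearIndependent ℤ ![P, Q] := by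
  rw [LinearIndependent.pair_iff]
  have key : ∀ N : ℕ, ∀ s t : ℤ, s.natAbs + t.natAbs ≤ N → s • P + t • Q = 0 → s = 0 ∧ t = 0 := by
    intro N
    induction N using Nat.strong_induction_on with
    | _ N ih =>
      intro s t hN hst
      by_cases h0 : s = 0 ∧ t = 0
      · exact h0
      have hs : (s : ZMod 2) = 0 := by
        have := congrArg f hst
        rw [map_add, map_zsmul, map_zsmul, fP, fQ, smul_zero, add_zero, map_zero, zsmul_one] at this
        exact this
      have ht : (t : ZMod 2) = 0 := by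
        have := congrArg g hst
        rw [map_add, map_zsmul, map_zsmul, gP, gQ, smul_zero, zero_add, map_zero, zsmul_one] at this
        exact this
      obtain ⟨s', rfl⟩ := (ZMod.intCast_zmod_eq_zero_iff_dvd s 2).1 hs
      obtain ⟨t', rfl⟩ := (ZMod.intCast_zmod_eq_zero_iff_dvd t 2).1 ht
      have h2 : (s' • P + t' • Q) + (s' • P + t' • Q) = 0 := by
        have e1 : ((2 : ℕ) : ℤ) * s' = s' + s' := by push_cast; ring
        have e2 : ((2 : ℕ) : ℤ) * t' = t' + t' := by push_cast; ring
        rw [e1, e2, add_smul, add_smul] at hst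
        rw [← hst]
        abel
      rcases htor _ h2 with h3 | h3
      · have hlt : s'.natAbs + t'.natAbs < N := by
          have e1 : (((2 : ℕ) : ℤ) * s').natAbs = 2 * s'.natAbs := by
            rw [Int.natAbs_mul]; rfl
          have e2 : (((2 : ℕ) : ℤ) * t').natAbs = 2 * t'.natAbs := by
            rw [Int.natAbs_mul]; rfl
          rw [e1, e2] at hN
          have : 0 < s'.natAbs + t'.natAbs := by
            by_contra hc
            apply h0
            have h5 : s'.natAbs = 0 := by omega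
            have h6 : t'.natAbs = 0 := by omega
            rw [Int.natAbs_eq_zero.1 h5, Int.natAbs_eq_zero.1 h6]
            exact ⟨mul_zero _, mul_zero _⟩
          omega
        obtain ⟨h5, h6⟩ := ih _ hlt s' t' le_rfl h3
        rw [h5, h6]
        exact ⟨mul_zero _, mul_zero _⟩
      · exfalso
        rw [map_add, map_zsmul, map_zsmul, eP, eQ, smul_zero, smul_zero, add_zero] at h3
        exact zero_ne_one h3
  intro s t hst
  exact key _ s t le_rfl hst

end group

section two

variable {k K : Type} [Field k] [Field K] [Algebra k[X] K] [IsFractionRing k[X] K]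

/-- Two independent points on `y² = x (x² + a x + b)` with `b = p q r`. -/
theorem indepT (h2 : (2 : k) ≠ 0) {a b p q r x1 y1 x2 y2 : k[X]} {c1 c2 : k} (hc1 : c1 ≠ 0)
    (hc2 : c2 ≠ 0) (hp : Irreducible p) (hq : Irreducible q) (hr : Irreducible r)
    (hpq : IsCoprime p q) (hpr : IsCoprime p r) (hqr : IsCoprime q r) (hb : b = p * q * r)
    (hd : ¬ IsSquare ((algebraMap k[X] K a) ^ 2 - 4 * algebraMap k[X] K b))
    (e1 : y1 ^ 2 = x1 * (x1 ^ 2 + a * x1 + b)) (e2 : y2 ^ 2 = x2 * (x2 ^ 2 + a * x2 + b))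
    (h1 : x1 = C c1 * p) (h3 : x2 = C c2 * q) :
    ∃ P : Fin 2 → Pt (crvT (algebraMap k[X] K a) (algebraMap k[X] K b)) K,
      LinearIndependent ℤ P := by
  have inj := IsFractionRing.injective k[X] K
  have h2K : (2 : K) ≠ 0 := tt h2
  have hb0 : b ≠ 0 := by rw [hb]; exact mul_ne_zero (mul_ne_zero hp.ne_zero hq.ne_zero) hr.ne_zero
  have hbK : algebraMap k[X] K b ≠ 0 := by rw [Ne, map_eq_zero_iff _ inj]; exact hb0
  have hdK : (algebraMap k[X] K a) ^ 2 - 4 * algebraMap k[X] K b ≠ 0 := by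
    intro h
    rw [h] at hd
    exact hd ⟨0, by ring⟩
  set A := algebraMap k[X] K a with hA
  set B := algebraMap k[X] K b with hB
  have ns : ∀ {x y : k[X]}, y ^ 2 = x * (x ^ 2 + a * x + b) →
      ((crvT A B).baseChange K).toAffine.Nonsingular (algebraMap k[X] K x)
        (algebraMap k[X] K y) := by
    intro x y h
    refine nonsT h2K hbK hdK ?_
    have := congrArg (algebraMap k[X] K) h
    rw [map_pow, map_mul, map_add, map_add, map_mul, map_pow] at this
    exact this
  have val : ∀ {π : k[X]} (hπ : Irreducible π) {x y : k[X]} (hxy : y ^ 2 = x * (x ^ 2 + a * x + b))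
      (hx : x ≠ 0), parHom (rootT A B) (ordK π hπ) (ordK_mul _ hπ) (Point.some _ _ (ns hxy)) =
        pr K π hπ x := by
    intro π hπ x y hxy hx
    show ((ordK π hπ (del _ 0 (Point.some _ _ (ns hxy))) : ℤ) : ZMod 2) = _
    have hxK : algebraMap k[X] K x ≠ 0 := by rw [Ne, map_eq_zero_iff _ inj]; exact hx
    have e : del ((crvT A B).baseChange K).toAffine 0 (Point.some _ _ (ns hxy)) =
        algebraMap k[X] K x := by
      show (if _ then _ else _) = _
      rw [if_neg hxK, sub_zero]
    rw [e]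
    rfl
  have x1n : x1 ≠ 0 := by rw [h1]; exact mul_ne_zero (C_ne_zero.2 hc1) hp.ne_zero
  have x2n : x2 ≠ 0 := by rw [h3]; exact mul_ne_zero (C_ne_zero.2 hc2) hq.ne_zero
  have pc : ∀ {π : k[X]} (hπ : Irreducible π) {c : k}, c ≠ 0 → pr K π hπ (C c) = 0 := by
    intro π hπ c hc
    exact pr_cop hπ (isCoprime_one_right.of_isCoprime_of_dvd_right
      (isUnit_C.2 (isUnit_iff_ne_zero.2 hc)).dvd)
  have v1 : ∀ {π : k[X]} (hπ : Irreducible π), pr K π hπ x1 = pr K π hπ p := by
    intro π hπ
    rw [h1, pr_mul hπ (C_ne_zero.2 hc1) hp.ne_zero, pc hπ hc1, zero_add]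
  have v2 : ∀ {π : k[X]} (hπ : Irreducible π), pr K π hπ x2 = pr K π hπ q := by
    intro π hπ
    rw [h3, pr_mul hπ (C_ne_zero.2 hc2) hq.ne_zero, pc hπ hc2, zero_add]
  refine ⟨![Point.some _ _ (ns e1), Point.some _ _ (ns e2)], ?_⟩
  refine indep_par (parHom (rootT A B) (ordK p hp) (ordK_mul _ hp))
    (parHom (rootT A B) (ordK q hq) (ordK_mul _ hq))
    (parHom (rootT A B) (ordK r hr) (ordK_mul _ hr)) ?_ ?_ ?_ ?_ ?_ ?_ ?_
  · rw [val hp e1 x1n, v1 hp, pr_self]
  · rw [val hq e1 x1n, v1 hq, pr_cop hq hpq.symm]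
  · rw [val hr e1 x1n, v1 hr, pr_cop hr hpr.symm]
  · rw [val hp e2 x2n, v2 hp, pr_cop hp hpq]
  · rw [val hq e2 x2n, v2 hq, pr_self]
  · rw [val hr e2 x2n, v2 hr, pr_cop hr hqr.symm]
  · intro R hR
    rcases two_torT h2K hd hR with h | ⟨h, rfl⟩
    · exact Or.inl h
    · right
      show ((ordK r hr (del _ 0 (Point.some 0 0 h)) : ℤ) : ZMod 2) = 1
      have e : del ((crvT A B).baseChange K).toAffine 0 (Point.some 0 0 h) =
          algebraMap k[X] K b := by
        show (if (0 : K) = 0 then Pool.Agent.W309.RK.dd _ 0 else _) = _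
        rw [if_pos rfl]
        show 3 * (0 : K) ^ 2 + 2 * _ * 0 + _ = _
        have e4 : ((crvT A B).baseChange K).toAffine.a₄ = B := rfl
        rw [e4, ← hB]
        ring
      rw [e]
      show pr K r hr b = 1
      rw [hb, pr_mul hr (mul_ne_zero hp.ne_zero hq.ne_zero) hr.ne_zero,
        pr_mul hr hp.ne_zero hq.ne_zero, pr_cop hr hpr.symm, pr_cop hr hqr.symm, pr_self]
      decide

end two

end Pool.Agent.N601.PB
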